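import Mathlib
import Pool.Agent.TH278.DX.Defs
import Pool.Agent.TH360.J4453
import Pool.Agent.TH576.J4447
set_option autoImplicit false

namespace Pool.Agent.TH564.DX

open Pool.Agent.TH278.DX

theorem inv_restrict {P G H H' : Type} [Group P] [Group G] [NormedAddCommGroup H]
    [InnerProductSpace ℂ H] [CompleteSpace H] [NormedAddCommGroup H'] [InnerProductSpace ℂ H']
    [CompleteSpace H'] (f : P →* G) (π : P →* (H →L[ℂ] H)ˣ) (π' : G →* (H' →L[ℂ] H')ˣ)
    (J : H →ₗᵢ[ℂ] H')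
    (hJ : ∀ (l : P) (x : H), ((π' (f l) : (H' →L[ℂ] H')ˣ) : H' →L[ℂ] H') (J x) =
        J (((π l : (H →L[ℂ] H)ˣ) : H →L[ℂ] H) x)) (m M : ℝ) (h : Inv π' m M) : Inv π m M := by
  obtain ⟨A, h1, h2, h3, h4⟩ := h
  set Jc : H →L[ℂ] H' := J.toContinuousLinearMap with hJc
  have hv : ∀ x, Jc x = J x := fun _ => rfl
  have key : ∀ x y : H,
      inner ℂ (((ContinuousLinearMap.adjoint Jc).comp (A.comp Jc)) x) y =
        inner ℂ (A (J x)) (J y) := by
    intro x y
    rw [ContinuousLinearMap.comp_apply, ContinuousLinearMap.adjoint_inner_left,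
      ContinuousLinearMap.comp_apply, hv, hv]
  refine ⟨(ContinuousLinearMap.adjoint Jc).comp (A.comp Jc), ?_, ?_, ?_, ?_⟩
  · intro x y
    rw [key, h1, ← inner_conj_symm (𝕜 := ℂ) x, key, inner_conj_symm]
  · intro x
    rw [key]
    have := h2 (J x)
    rwa [J.norm_map] at this
  · intro x
    rw [key]
    have := h3 (J x)
    rwa [J.norm_map] at this
  · intro g x y
    rw [key, key, ← hJ, ← hJ, h4]

theorem sim_mono {G H : Type} [Group G] [NormedAddCommGroup H] [InnerProductSpace ℂ H]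
    [CompleteSpace H] (π : G →* (H →L[ℂ] H)ˣ) {κ κ' : ℝ} (h : Sim π κ) (hk : κ ≤ κ') :
    Sim π κ' := by
  obtain ⟨S, h1, h2⟩ := h
  exact ⟨S, h1.trans hk, h2⟩

/-- Subgroups of unitarizable groups are unitarizable. -/
theorem unitarizable_sub {G : Type} [Group G]
    (hG : ∀ (H : Type) [NormedAddCommGroup H] [InnerProductSpace ℂ H] [CompleteSpace H]
      (π : G →* (H →L[ℂ] H)ˣ) (c : ℝ), Bdd π c → ∃ κ : ℝ, Sim π κ) (P : Subgroup G) :
    ∀ (H : Type) [NormedAddCommGroup H] [InnerProductSpace ℂ H] [CompleteSpace H]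
      (π : P →* (H →L[ℂ] H)ˣ) (c : ℝ), Bdd π c → ∃ κ : ℝ, Sim π κ := by
  intro H _ _ _ π c hc
  obtain ⟨H', i1, i2, i3, π', J, hb, hJ⟩ := Pool.Agent.TH360.J4453.induce P π c hc
  obtain ⟨κ, hκ⟩ := hG H' π' c hb
  have hκ' : Sim π' (max κ 1) := sim_mono π' hκ (le_max_left _ _)
  have h1 := (sim_iff_inv π' (max κ 1) (le_max_right _ _)).1 hκ'
  have h2 : Inv π 1 ((max κ 1) ^ 2) := inv_restrict P.subtype π π' J hJ _ _ h1
  exact ⟨max κ 1, (sim_iff_inv π (max κ 1) (le_max_right _ _)).2 h2⟩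

/-- Quotients of unitarizable groups are unitarizable. -/
theorem unitarizable_quotient {P Q : Type} [Group P] [Group Q]
    (hP : ∀ (H : Type) [NormedAddCommGroup H] [InnerProductSpace ℂ H] [CompleteSpace H]
      (π : P →* (H →L[ℂ] H)ˣ) (c : ℝ), Bdd π c → ∃ κ : ℝ, Sim π κ)
    (f : P →* Q) (hf : Function.Surjective f) :
    ∀ (H : Type) [NormedAddCommGroup H] [InnerProductSpace ℂ H] [CompleteSpace H]
      (π : Q →* (H →L[ℂ] H)ˣ) (c : ℝ), Bdd π c → ∃ κ : ℝ, Sim π κ := by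
  intro H _ _ _ π c hc
  obtain ⟨κ, S, h1, h2⟩ := hP H (π.comp f) c (fun g => hc (f g))
  refine ⟨κ, S, h1, fun g => ?_⟩
  obtain ⟨p, rfl⟩ := hf g
  exact h2 p

/-- Subquotients of unitarizable groups are unitarizable. -/
theorem unitarizable_subquotient {G Q : Type} [Group G] [Group Q]
    (hG : ∀ (H : Type) [NormedAddCommGroup H] [InnerProductSpace ℂ H] [CompleteSpace H]
      (π : G →* (H →L[ℂ] H)ˣ) (c : ℝ), Bdd π c → ∃ κ : ℝ, Sim π κ) (P : Subgroup G)
    (f : P →* Q) (hf : Function.Surjective f) :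
    ∀ (H : Type) [NormedAddCommGroup H] [InnerProductSpace ℂ H] [CompleteSpace H]
      (π : Q →* (H →L[ℂ] H)ˣ) (c : ℝ), Bdd π c → ∃ κ : ℝ, Sim π κ :=
  unitarizable_quotient (unitarizable_sub hG P) f hf

end Pool.Agent.TH564.DX
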